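import Pool.Agent.Helper67.BT.Stmts

open Finset MeasureTheory

namespace Pool.Agent.Helper67.BT

theorem st_DIA (hDID : ST_DID) (hLB : ST_LB) (hGB : ST_GB) (hQB : ST_QB) : ST_DIA := by
  intro k
  obtain ⟨K1, hK1, H1⟩ := hLB k
  obtain ⟨K2, hK2, H2⟩ := hGB k
  obtain ⟨K3, hK3, H3⟩ := hQB k
  set K : ℝ := max K1 (max K2 K3) with hK
  have h1K : K1 ≤ K := le_max_left _ _
  have h2K : K2 ≤ K := le_trans (le_max_left _ _) (le_max_right _ _)
  have h3K : K3 ≤ K := le_trans (le_max_right _ _) (le_max_right _ _)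
  have hK0 : 1 ≤ K := hK1.trans h1K
  have hKp : 0 < K := by linarith
  refine ⟨1 / (4 * K ^ 2), by positivity, ?_, ?_⟩
  · rw [div_le_one (by positivity)]
    nlinarith
  · intro n c p v m hp hp2 hD
    have hε : 1 / (4 * K ^ 2) ≤ 1 / 4 := by
      apply one_div_le_one_div_of_le (by norm_num)
      nlinarith
    have hp3 : p ≤ 3 := by linarith
    have hA := hDID n k c p v m hp hp3 hD
    have hB := H2 n c p (ff c v m) hp hp3
    have hC := H3 n c p v m hp hp3
    set A : ℝ := ∑ i, c.s i * ‖ff c v m i‖ ^ 2 with hAdef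
    have hA0 : 0 ≤ A := Finset.sum_nonneg fun i _ => mul_nonneg (c.s0 i) (by positivity)
    have hE : (1 / K - K * (p - 2)) * A ≤
        ∑ i, c.s i * av c p fun x => |c.z i x| ^ (p - 2) * (inner ℝ (ff c v m i) x) ^ 2 := by
      rw [hAdef, Finset.mul_sum]
      apply Finset.sum_le_sum
      intro i _
      have h := H1 n c p i (ff c v m i) hp hp3
      have h1 : (1 / K - K * (p - 2)) ≤ (1 / K1 - K1 * (p - 2)) := by
        have h3 : 1 / K ≤ 1 / K1 := one_div_le_one_div_of_le (by linarith) h1K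
        nlinarith
      have h2 : (1 / K - K * (p - 2)) * ‖ff c v m i‖ ^ 2 ≤
          (1 / K1 - K1 * (p - 2)) * ‖ff c v m i‖ ^ 2 :=
        mul_le_mul_of_nonneg_right h1 (by positivity)
      calc (1 / K - K * (p - 2)) * (c.s i * ‖ff c v m i‖ ^ 2) =
            c.s i * ((1 / K - K * (p - 2)) * ‖ff c v m i‖ ^ 2) := by ring
        _ ≤ c.s i * _ := mul_le_mul_of_nonneg_left (h2.trans h) (c.s0 i)
    have hq : -(K * (p - 2) * A) ≤ qq c p m / p ^ 2 := by
      have h4 := (abs_le.mp hC).1
      have h5 : K3 * (p - 2) * A ≤ K * (p - 2) * A := by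
        apply mul_le_mul_of_nonneg_right _ hA0
        apply mul_le_mul_of_nonneg_right h3K (by linarith)
      have h6 : -(K * (p - 2) * A) ≤ qq c p m := by linarith
      have h7 : 0 ≤ K * (p - 2) * A := by
        have : 0 ≤ p - 2 := by linarith
        positivity
      rw [le_div_iff₀ (by positivity)]
      have h8 : 1 ≤ p ^ 2 := by nlinarith
      nlinarith
    have hg : K2 * (p - 2) ^ 2 * A ≤ K * (p - 2) * A := by
      apply mul_le_mul_of_nonneg_right _ hA0
      have h9 : (p - 2) ^ 2 ≤ p - 2 := by nlinarith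
      calc K2 * (p - 2) ^ 2 ≤ K * (p - 2) ^ 2 := mul_le_mul_of_nonneg_right h2K (by positivity)
        _ ≤ K * (p - 2) := mul_le_mul_of_nonneg_left h9 hKp.le
    have hfin : 0 ≤ (1 / K - K * (p - 2)) * A - K * (p - 2) * A - K * (p - 2) * A := by
      have h10 : 3 * (K * (p - 2)) ≤ 1 / K := by
        have h11 : p - 2 ≤ 1 / (4 * K ^ 2) := by linarith
        have h12 : K * (p - 2) ≤ K * (1 / (4 * K ^ 2)) := mul_le_mul_of_nonneg_left h11 hKp.le
        have h13 : K * (1 / (4 * K ^ 2)) = (1 / K) / 4 := by field_simp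
        have h14 : 0 < 1 / K := by positivity
        rw [h13] at h12
        linarith
      nlinarith
    linarith

end Pool.Agent.Helper67.BT
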