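import Pool.Agent.Helper67.BT.Stmts

open Finset MeasureTheory

namespace Pool.Agent.Helper67.BT

theorem st_GAP : ST_GAP := by
  intro k m l l' hll
  classical
  have hk : 0 < k := Nat.pos_of_ne_zero (by rintro rfl; exact l.elim0)
  have hkR : (0 : ℝ) < k := by exact_mod_cast hk
  set d : ℝ := (m l - m l') / k with hd
  have hd0 : 0 < d := div_pos (by linarith) hkR
  have hkd : (k : ℝ) * d = m l - m l' := by rw [hd]; field_simp
  -- a gap
  have key : ∃ j : Fin k, ∀ b : Fin k, ¬ (m l' + j * d < m b ∧ m b < m l' + (j + 1) * d) := by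
    by_contra hno
    push Not at hno
    choose a ha using hno
    have hinj : Function.Injective a := by
      intro i j hij
      by_contra hne
      rcases lt_or_gt_of_ne hne with h | h
      · have h1 : ((i : ℕ) : ℝ) + 1 ≤ ((j : ℕ) : ℝ) := by exact_mod_cast h
        have h2 := (ha i).2
        have h3 := (ha j).1
        rw [hij] at h2
        nlinarith
      · have h1 : ((j : ℕ) : ℝ) + 1 ≤ ((i : ℕ) : ℝ) := by exact_mod_cast h
        have h2 := (ha j).2
        have h3 := (ha i).1
        rw [hij] at h3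
        nlinarith
    have hsur : Function.Surjective a := Finite.surjective_of_injective hinj
    obtain ⟨j, hj⟩ := hsur l
    have h2 := (ha j).2
    rw [hj] at h2
    have h1 : ((j : ℕ) : ℝ) + 1 ≤ (k : ℝ) := by exact_mod_cast j.2
    nlinarith
  obtain ⟨j, hj⟩ := key
  have hj1 : ((j : ℕ) : ℝ) + 1 ≤ (k : ℝ) := by exact_mod_cast j.2
  have hj0 : (0 : ℝ) ≤ ((j : ℕ) : ℝ) := Nat.cast_nonneg _
  refine ⟨univ.filter fun a => m l' + (j + 1) * d ≤ m a, ?_, ?_, ?_⟩
  · rw [mem_filter]
    refine ⟨mem_univ _, ?_⟩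
    nlinarith
  · rw [mem_filter]
    push Not
    intro _
    nlinarith
  · intro a ha b hb
    rw [mem_filter] at ha hb
    push Not at hb
    have h1 := ha.2
    have h2 := hb (mem_univ _)
    have h3 : m b ≤ m l' + j * d := by
      by_contra h4
      push Not at h4
      exact hj b ⟨h4, h2⟩
    nlinarith

end Pool.Agent.Helper67.BT
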